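import Pool.Agent.Helper58.IQ.Defs

/-!
# Fine Selmer groups of Galois modules

`K` is a field of characteristic zero, `Kb` an algebraic closure, and `H` is a subgroup of
`Gal(Kb/K)`; it is the Galois group of `Kb/F` for a field `F`. A module is given by
`ρ : Gal(Kb/K) →* AddMonoid.End M`.
-/

open scoped NumberField Pointwise

namespace Pool.Agent.Helper58.FS

open Pool.Agent.Helper58.IQ

variable {K : Type*} [Field K] {M : Type*} [AddCommGroup M]

/-- The continuous cocycles of `H` with values in `M` whose classes are locally trivial at all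
primes: for every nonzero prime `P` of the ring of integers of `Kb` the restriction to the
decomposition group of `P` in `H` is a coboundary. -/
def selZ (ρ : GK K →* AddMonoid.End M) (H : Subgroup (GK K)) : AddSubgroup (H → M) where
  carrier := {c | IsLocallyConstant c ∧ (∀ g h : H, c (g * h) = c g + ρ g (c h)) ∧
    ∀ P : Ideal (𝓞 (Kb K)), P.IsPrime → P ≠ ⊥ →
      ∃ m : M, ∀ g : H, (g : GK K) • P = P → c g = ρ g m - m}
  zero_mem' := ⟨IsLocallyConstant.const 0, fun g h => by simp, fun P _ _ => ⟨0, fun g _ => by simp⟩⟩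
  add_mem' := by
    rintro c d ⟨hc1, hc2, hc3⟩ ⟨hd1, hd2, hd3⟩
    refine ⟨hc1.add hd1, fun g h => ?_, fun P hP h0 => ?_⟩
    · simp only [Pi.add_apply, hc2 g h, hd2 g h, map_add]
      abel
    · obtain ⟨m, hm⟩ := hc3 P hP h0
      obtain ⟨n, hn⟩ := hd3 P hP h0
      refine ⟨m + n, fun g hg => ?_⟩
      simp only [Pi.add_apply, hm g hg, hn g hg, map_add]
      abel
  neg_mem' := by
    rintro c ⟨hc1, hc2, hc3⟩
    refine ⟨hc1.neg, fun g h => ?_, fun P hP h0 => ?_⟩
    · simp only [Pi.neg_apply, hc2 g h, map_neg]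
      abel
    · obtain ⟨m, hm⟩ := hc3 P hP h0
      refine ⟨-m, fun g hg => ?_⟩
      simp only [Pi.neg_apply, hm g hg, map_neg]
      abel

/-- The coboundaries of `H` with values in `M`. -/
def selB (ρ : GK K →* AddMonoid.End M) (H : Subgroup (GK K)) : AddSubgroup (H → M) where
  carrier := {c | ∃ m : M, ∀ g : H, c g = ρ g m - m}
  zero_mem' := ⟨0, fun g => by simp⟩
  add_mem' := by
    rintro c d ⟨m, hm⟩ ⟨n, hn⟩
    refine ⟨m + n, fun g => ?_⟩
    simp only [Pi.add_apply, hm g, hn g, map_add]
    abel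
  neg_mem' := by
    rintro c ⟨m, hm⟩
    refine ⟨-m, fun g => ?_⟩
    simp only [Pi.neg_apply, hm g, map_neg]
    abel

/-- The fine Selmer group of `M` over the fixed field of `H`: the everywhere locally trivial
classes in `H¹(H, M)`. -/
abbrev Sel (ρ : GK K →* AddMonoid.End M) (H : Subgroup (GK K)) : Type _ :=
  selZ ρ H ⧸ (selB ρ H).addSubgroupOf (selZ ρ H)

/-- The fine Selmer group of `M` over the fixed field of `H` is finite. -/
def FinSel (ρ : GK K →* AddMonoid.End M) (H : Subgroup (GK K)) : Prop := Finite (Sel ρ H)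

end Pool.Agent.Helper58.FS
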