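import Pool.Agent.Helper58.FS.Prm
import Pool.Agent.Helper58.FS.Sel

/-!
# From the Galois group over `K` to the Galois group over `ℚ`
-/

open scoped NumberField Pointwise

namespace Pool.Agent.Helper58.FS

open Pool.Agent.Helper58.IQ

/-- The inclusion of `Gal(Kb/K)` in `Gal(Kb/ℚ)`. -/
noncomputable def toQ (K : Type*) [Field K] [CharZero K] : GK K →* GQ (Kb K) where
  toFun g := AlgEquiv.restrictScalars ℚ g
  map_one' := rfl
  map_mul' _ _ := rfl

theorem toQ_apply {K : Type*} [Field K] [CharZero K] (g : GK K) (x : Kb K) : toQ K g x = g x :=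
  rfl

theorem toQ_inj (K : Type*) [Field K] [CharZero K] : Function.Injective (toQ K) := by
  intro g h e
  ext x
  have := congrArg (fun s : GQ (Kb K) => s x) e
  exact this

open Classical in
/-- The action of `Gal(Kb/K)`, extended by the identity to `Gal(Kb/ℚ)`. -/
noncomputable def extAct {K : Type*} [Field K] [CharZero K] {M : Type*} [AddCommGroup M]
    (ρ : GK K →* AddMonoid.End M) (g : GQ (Kb K)) : M →+ M :=
  if h : ∃ g' : GK K, toQ K g' = g then ρ h.choose else AddMonoidHom.id M

theorem extAct_toQ {K : Type*} [Field K] [CharZero K] {M : Type*} [AddCommGroup M]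
    (ρ : GK K →* AddMonoid.End M) (g : GK K) : extAct ρ (toQ K g) = ρ g := by
  have h : ∃ g' : GK K, toQ K g' = toQ K g := ⟨g, rfl⟩
  unfold extAct
  rw [dif_pos h, toQ_inj K h.choose_spec]

end Pool.Agent.Helper58.FS
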