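import Pool.Agent.Helper58.FS.CurveP

/-!
# Conjecture A of Coates and Sujatha
-/

open scoped NumberField

namespace Pool.Agent.Helper58.FS

open Pool.Agent.Helper58.IQ

variable {K : Type*} [Field K]

/-- The subgroup `W[p^∞]` of all points in `W(Kb)` of `p`-power order. -/
noncomputable def torInf (p : ℕ) (W : WeierstrassCurve K) : AddSubgroup (Pts W) where
  carrier := {P | ∃ n : ℕ, p ^ n • P = 0}
  zero_mem' := ⟨0, by simp⟩
  add_mem' := by
    rintro P Q ⟨n, hn⟩ ⟨m, hm⟩
    refine ⟨n + m, ?_⟩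
    have h1 : p ^ (n + m) • P = 0 := by
      rw [pow_add, mul_comm, mul_nsmul', hn]
      exact nsmul_zero _
    have h2 : p ^ (n + m) • Q = 0 := by
      rw [pow_add, mul_nsmul', hm]
      exact nsmul_zero _
    have h3 := (nsmulAddMonoidHom (α := Pts W) (p ^ (n + m))).map_add P Q
    simp only [nsmulAddMonoidHom_apply] at h3
    rw [h3, h1, h2, add_zero]
  neg_mem' := by
    rintro P ⟨n, hn⟩
    have h3 := (nsmulAddMonoidHom (α := Pts W) (p ^ n)).map_neg P
    simp only [nsmulAddMonoidHom_apply] at h3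
    exact ⟨n, by rw [h3, hn, neg_zero]⟩

theorem mem_torInf {p : ℕ} {W : WeierstrassCurve K} {P : Pts W} :
    P ∈ torInf p W ↔ ∃ n : ℕ, p ^ n • P = 0 := Iff.rfl

theorem stab_torInf (p : ℕ) (W : WeierstrassCurve K) : Stab W (torInf p W) := fun g P hP => by
  obtain ⟨n, hn⟩ := hP
  exact ⟨n, by rw [← map_nsmul, hn, map_zero]⟩

/-- The Galois module `W[p^∞]`. -/
noncomputable def torInfRep (p : ℕ) (W : WeierstrassCurve K) :
    GK K →* AddMonoid.End (torInf p W) :=
  subRep (ptsRep W) (torInf p W) (stab_torInf p W)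

/-- The group `ℚ_p/ℤ_p`. -/
abbrev QZ (p : ℕ) [Fact p.Prime] : Type :=
  ℚ_[p] ⧸ LinearMap.range (Algebra.linearMap ℤ_[p] ℚ_[p])

/-- The fine Selmer group of `W[p^∞]` over the cyclotomic `ℤ_p`-extension of `K`. -/
abbrev FineSelmer (p : ℕ) [Fact p.Prime] (W : WeierstrassCurve K) : Type _ :=
  Sel (torInfRep p W) (Gcyc K p)

/-- Conjecture A of Coates and Sujatha: the Pontryagin dual of the fine Selmer group of
`W[p^∞]` over the cyclotomic `ℤ_p`-extension of `K` is a finitely generated `ℤ_p`-module. -/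
def ConjCS (p : ℕ) [Fact p.Prime] (W : WeierstrassCurve K) : Prop :=
  Module.Finite ℤ_[p] (FineSelmer p W →+ QZ p)

end Pool.Agent.Helper58.FS
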