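import Pool.Agent.Helper58.FS.Prm

/-!
# Infinite modules
-/

open scoped NumberField Pointwise

namespace Pool.Agent.Helper58.FS

section

variable {G : Type*} [Group G] [TopologicalSpace G] (X : Type*) [MulAction G X]
  {M : Type*} [AddCommGroup M]

/-- `a` is a pointwise continuous action of `H` on `M`. -/
structure ActP (H : Subgroup G) (a : G → M →+ M) : Prop where
  one : a 1 = AddMonoidHom.id M
  mul : ∀ g ∈ H, ∀ h ∈ H, a (g * h) = (a g).comp (a h)
  cont : ∀ m : M, ∃ U : Subgroup G, IsOpen (U : Set G) ∧ ∀ u ∈ U ⊓ H, a u m = m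

/-- There are only finitely many everywhere locally trivial classes in `H¹(H, M)` which are
killed by `p`. -/
def FinShp (a : G → M →+ M) (H : Subgroup G) (p : ℕ) : Prop :=
  (Bsh a H).relIndex (Zsh X a H ⊓ (Bsh a H).comap (nsmulAddMonoidHom p)) ≠ 0

/-- Outside finitely many orbits of `H` the stabilizers in `H` are, modulo elements which fix
`M`, of order prime to `p`. -/
def ArithInf (H : Subgroup G) (a : G → M →+ M) (p : ℕ) : Prop :=
  ∃ F : Set X, F.Finite ∧ ∀ x : X, (∃ y ∈ F, ∃ h ∈ H, x = h • y) ∨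
    ∀ U : Subgroup G, U.Normal → IsOpen (U : Set G) → ∀ h ∈ H, h • x = x →
      ∃ e : ℕ, e.Coprime p ∧ ∃ ι ∈ H, ι • x = x ∧ (∀ m, a ι m = m) ∧ h ^ e * ι⁻¹ ∈ U

end

/-- The points `(x, y)` and `(x', y')` have the same reduction: both have infinite reduction, or
both are integral and the coordinates are congruent. -/
def Cong {F : Type*} [Field F] (A : ValuationSubring F) (x y x' y' : F) : Prop :=
  (x ∉ A ∧ x' ∉ A) ∨ (x ∈ A ∧ x' ∈ A ∧ A.valuation (x - x') < 1 ∧ A.valuation (y - y') < 1)

end Pool.Agent.Helper58.FS
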