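import Pool.Agent.Helper58.IQ.Stmt
import Pool.Agent.Helper58.FS.Sel

/-!
# The `p`-torsion of elliptic curves and conjugate Galois modules
-/

open scoped NumberField

namespace Pool.Agent.Helper58.FS

open Pool.Agent.Helper58.IQ

variable {K : Type*} [Field K]

/-- The `p`-torsion subgroup `W[p]` of `W(Kb)`. -/
noncomputable def torp (p : ℕ) (W : WeierstrassCurve K) : AddSubgroup (Pts W) :=
  (nsmulAddMonoidHom p).ker

theorem mem_torp {p : ℕ} {W : WeierstrassCurve K} {P : Pts W} : P ∈ torp p W ↔ p • P = 0 :=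
  Iff.rfl

theorem stab_torp (p : ℕ) (W : WeierstrassCurve K) : Stab W (torp p W) := fun g P hP => by
  rw [mem_torp] at hP ⊢
  rw [← map_nsmul, hP, map_zero]

/-- The Galois module `W[p]`. -/
noncomputable def torpRep (p : ℕ) (W : WeierstrassCurve K) :
    GK K →* AddMonoid.End (torp p W) :=
  subRep (ptsRep W) (torp p W) (stab_torp p W)

/-- The Galois module `W[p] / T` for a stable subgroup `T` of `W[p]`. -/
noncomputable def quopRep (p : ℕ) (W : WeierstrassCurve K) (T : AddSubgroup (Pts W))
    (hs : Stab W T) : GK K →* AddMonoid.End (torp p W ⧸ T.addSubgroupOf (torp p W)) :=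
  quoRep (torpRep p W) (T.addSubgroupOf (torp p W)) (fun g x hx => hs g x hx)

/-- There are isogenies over `K` in both directions. -/
def IsogBoth (W W' : WeierstrassCurve K) : Prop := Isogenous W W' ∧ Isogenous W' W

/-- Let `L` be a field between `K` and `Kb` and `σ` an automorphism of `Kb` with `σ(L) = L`. The
modules `M` and `N` for `Gal(Kb/K)` are conjugate under `σ` over `L` if `N` is isomorphic over
`Gal(Kb/L)` to the module `M^σ`, which is `M` with `h` acting as `g = σ⁻¹ h σ`. -/
def ConjOver (L : IntermediateField K (Kb K)) (σ : Kb K ≃+* Kb K) {M N : Type*}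
    [AddCommGroup M] [AddCommGroup N] (ρ : GK K →* AddMonoid.End M)
    (τ : GK K →* AddMonoid.End N) : Prop :=
  ∃ e : M ≃+ N, ∀ g h : GK K, g ∈ L.fixingSubgroup → (∀ x, σ (g x) = h (σ x)) →
    ∀ m, e (ρ g m) = τ h (e m)

end Pool.Agent.Helper58.FS
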