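import Mathlib

/-!
# Everywhere locally trivial classes over a cyclotomic tower: abstract form

`G` is a group acting on a set `X` (primes), `H` a subgroup, `a : G → M →+ M` an action of `H` on
`M` (the values outside `H` do not matter). Cochains are functions on `G`, only their values on
`H` matter.
-/

namespace Pool.Agent.Helper58.FS

section Abstract

variable {G : Type*} [Group G] [TopologicalSpace G] (X : Type*) [MulAction G X]
  {M : Type*} [AddCommGroup M]

/-- `a` is a continuous action of `H` on `M`. -/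
structure Act (H : Subgroup G) (a : G → M →+ M) : Prop where
  one : a 1 = AddMonoidHom.id M
  mul : ∀ g ∈ H, ∀ h ∈ H, a (g * h) = (a g).comp (a h)
  cont : ∃ U : Subgroup G, IsOpen (U : Set G) ∧ ∀ u ∈ U ⊓ H, a u = AddMonoidHom.id M

/-- The continuous cocycles on `H` that are trivial on the stabilizers of all points of `X`. -/
def Zsh (a : G → M →+ M) (H : Subgroup G) : AddSubgroup (G → M) where
  carrier := {c | (∀ g ∈ H, ∀ h ∈ H, c (g * h) = c g + a g (c h)) ∧
    (∃ U : Subgroup G, IsOpen (U : Set G) ∧ ∀ g ∈ H, ∀ u ∈ U ⊓ H, c (g * u) = c g) ∧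
    ∀ x : X, ∃ m : M, ∀ g ∈ H, g • x = x → c g = a g m - m}
  zero_mem' := ⟨fun g _ h _ => by simp, ⟨⊤, isOpen_univ, fun g _ u _ => rfl⟩,
    fun x => ⟨0, fun g _ _ => by simp⟩⟩
  add_mem' := by
    rintro c d ⟨hc1, ⟨U, hU, hc2⟩, hc3⟩ ⟨hd1, ⟨V, hV, hd2⟩, hd3⟩
    refine ⟨fun g hg h hh => ?_, ⟨U ⊓ V, hU.inter hV, fun g hg u hu => ?_⟩, fun x => ?_⟩
    · simp only [Pi.add_apply, hc1 g hg h hh, hd1 g hg h hh, map_add]
      abel
    · simp only [Pi.add_apply]
      rw [hc2 g hg u ⟨hu.1.1, hu.2⟩, hd2 g hg u ⟨hu.1.2, hu.2⟩]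
    · obtain ⟨m, hm⟩ := hc3 x
      obtain ⟨n, hn⟩ := hd3 x
      refine ⟨m + n, fun g hg hgx => ?_⟩
      simp only [Pi.add_apply, hm g hg hgx, hn g hg hgx, map_add]
      abel
  neg_mem' := by
    rintro c ⟨hc1, ⟨U, hU, hc2⟩, hc3⟩
    refine ⟨fun g hg h hh => ?_, ⟨U, hU, fun g hg u hu => ?_⟩, fun x => ?_⟩
    · simp only [Pi.neg_apply, hc1 g hg h hh, map_neg]
      abel
    · simp only [Pi.neg_apply]
      rw [hc2 g hg u hu]
    · obtain ⟨m, hm⟩ := hc3 x
      refine ⟨-m, fun g hg hgx => ?_⟩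
      simp only [Pi.neg_apply, hm g hg hgx, map_neg]
      abel

/-- The functions which are coboundaries on `H`. -/
def Bsh (a : G → M →+ M) (H : Subgroup G) : AddSubgroup (G → M) where
  carrier := {c | ∃ m : M, ∀ g ∈ H, c g = a g m - m}
  zero_mem' := ⟨0, fun g _ => by simp⟩
  add_mem' := by
    rintro c d ⟨m, hm⟩ ⟨n, hn⟩
    refine ⟨m + n, fun g hg => ?_⟩
    simp only [Pi.add_apply, hm g hg, hn g hg, map_add]
    abel
  neg_mem' := by
    rintro c ⟨m, hm⟩
    refine ⟨-m, fun g hg => ?_⟩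
    simp only [Pi.neg_apply, hm g hg, map_neg]
    abel

/-- There are only finitely many everywhere locally trivial classes in `H¹(H, M)`. -/
def FinSh (a : G → M →+ M) (H : Subgroup G) : Prop :=
  (Bsh a H).relIndex (Zsh X a H) ≠ 0

/-- The arithmetic input: for every open normal subgroup `U`, outside finitely many orbits of
`C ⊓ U` the stabilizers in `C` are, modulo `U`, of order prime to `p`. -/
def ArithHyp (C : Subgroup G) (p : ℕ) : Prop :=
  ∀ U : Subgroup G, U.Normal → IsOpen (U : Set G) →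
    ∃ F : Set X, F.Finite ∧ ∀ x : X, (∃ y ∈ F, ∃ h ∈ C ⊓ U, x = h • y) ∨
      ∀ h ∈ C, h • x = x → ∃ e : ℕ, e.Coprime p ∧ h ^ e ∈ U

/-- The continuous cocycles on `H` that vanish on the stabilizers in `H ⊓ U`. -/
def Zloc (a : G → M →+ M) (H U : Subgroup G) : AddSubgroup (G → M) where
  carrier := {c | (∀ g ∈ H, ∀ h ∈ H, c (g * h) = c g + a g (c h)) ∧
    (∃ U : Subgroup G, IsOpen (U : Set G) ∧ ∀ g ∈ H, ∀ u ∈ U ⊓ H, c (g * u) = c g) ∧
    ∀ x : X, ∀ g ∈ H ⊓ U, g • x = x → c g = 0}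
  zero_mem' := ⟨fun g _ h _ => by simp, ⟨⊤, isOpen_univ, fun g _ u _ => rfl⟩,
    fun x g _ _ => rfl⟩
  add_mem' := by
    rintro c d ⟨hc1, ⟨U, hU, hc2⟩, hc3⟩ ⟨hd1, ⟨V, hV, hd2⟩, hd3⟩
    refine ⟨fun g hg h hh => ?_, ⟨U ⊓ V, hU.inter hV, fun g hg u hu => ?_⟩, fun x g hg hx => ?_⟩
    · simp only [Pi.add_apply, hc1 g hg h hh, hd1 g hg h hh, map_add]
      abel
    · simp only [Pi.add_apply]
      rw [hc2 g hg u ⟨hu.1.1, hu.2⟩, hd2 g hg u ⟨hu.1.2, hu.2⟩]
    · simp only [Pi.add_apply, hc3 x g hg hx, hd3 x g hg hx, add_zero]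
  neg_mem' := by
    rintro c ⟨hc1, ⟨U, hU, hc2⟩, hc3⟩
    refine ⟨fun g hg h hh => ?_, ⟨U, hU, fun g hg u hu => ?_⟩, fun x g hg hx => ?_⟩
    · simp only [Pi.neg_apply, hc1 g hg h hh, map_neg]
      abel
    · simp only [Pi.neg_apply]
      rw [hc2 g hg u hu]
    · simp only [Pi.neg_apply, hc3 x g hg hx, neg_zero]


/-- The action on functions on the finite `H`-set `J` (given by `π g j = g j` for `g ∈ H`). -/
def indAct {J : Type*} (a : G → M →+ M) (π : G → J → J) : G → (J → M) →+ (J → M) := fun g =>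
  { toFun := fun f j => a g (f (π g⁻¹ j))
    map_zero' := by
      funext j
      simp
    map_add' := fun f f' => by
      funext j
      simp }

end Abstract

end Pool.Agent.Helper58.FS
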