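import Pool.Agent.Helper58.FS.Prm

/-!
# Statements of the pieces AR (not imported by anything)
-/

open scoped NumberField Pointwise

namespace Pool.Agent.Helper58.FS

namespace Frame

variable {Ω : Type*} [Field Ω] [CharZero Ω] [IsAlgClosed Ω] [Algebra.IsAlgebraic ℚ Ω]
  (p : ℕ) [Fact p.Prime]

/-! AR1 (helper27): Frobenius powers of `Gcyc` have no `p`-part. -/

theorem ar1 (hp : p ≠ 2) (P : Prm Ω) (hpP : (p : 𝓞 Ω) ∉ P.1) (h : GQ Ω) (hC : h ∈ Cyc Ω p)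
    (hP : h • P = P) (θ : 𝓞 Ω) : ∃ e : ℕ, e.Coprime p ∧ (h ^ e) • θ - θ ∈ P.1 := sorry

/-! AR2 (helper98): almost all primes are unramified. -/

theorem ar2 (U : Subgroup (GQ Ω)) (hN : U.Normal) (hU : IsOpen (U : Set (GQ Ω))) :
    ∃ (N : ℕ) (θ : 𝓞 Ω), N ≠ 0 ∧ ∀ P : Prm Ω, (N : 𝓞 Ω) ∉ P.1 → ∀ h : GQ Ω,
      h • θ - θ ∈ P.1 → h ∈ U := sorry

/-! AR3a, AR3b (helper3): elements of decomposition groups with given cyclotomic action. -/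

theorem ar3a (l : ℕ) (hl : l.Prime) (hlp : l ≠ p) (P : Prm Ω) (hP : (l : 𝓞 Ω) ∈ P.1) :
    ∃ h : GQ Ω, h • P = P ∧ ∀ (n : ℕ) (z : Ω), z ^ p ^ n = 1 → h z = z ^ l := sorry

theorem ar3b (P : Prm Ω) (hP : (p : 𝓞 Ω) ∈ P.1) (g : GQ Ω) (n : ℕ) :
    ∃ h : GQ Ω, h • P = P ∧ ∀ z : Ω, z ^ p ^ n = 1 → h z = g z := sorry

/-- AR-trans (helper98). The group `Ω ≃ₐ[ℚ] Ω` is transitive on the primes above a prime number. -/
theorem trans (l : ℕ) (hl : l.Prime) (P Q : Prm Ω) (hP : (l : 𝓞 Ω) ∈ P.1)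
    (hQ : (l : 𝓞 Ω) ∈ Q.1) : ∃ g : GQ Ω, g • P = Q := sorry

/-! AR3c (helper47): finite decomposition; from `ar3a`, `ar3b`, `trans`. -/

theorem ar3c (hp : p ≠ 2) (l : ℕ) (hl : l.Prime) (U : Subgroup (GQ Ω)) (hN : U.Normal)
    (hU : IsOpen (U : Set (GQ Ω))) :
    ∃ F : Set (Prm Ω), F.Finite ∧ ∀ P : Prm Ω, (l : 𝓞 Ω) ∈ P.1 →
      ∃ Q ∈ F, ∃ h ∈ Cyc Ω p ⊓ U, P = h • Q := sorry

/-! AR4 (helper58) -/

theorem arith (hp : p ≠ 2) : ArithHyp (Prm Ω) (Cyc Ω p) p := sorry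

end Frame

end Pool.Agent.Helper58.FS
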