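import Pool.Agent.Helper58.FS.Defs

/-!
# Statements of the pieces AL (not imported by anything)
-/

namespace Pool.Agent.Helper58.FS

namespace Frame

variable {G : Type*} [Group G] [TopologicalSpace G] [IsTopologicalGroup G] [CompactSpace G]
  (X : Type*) [MulAction G X] {M N Q T : Type*} [AddCommGroup M] [AddCommGroup N]
  [AddCommGroup Q] [AddCommGroup T]

/-! A1, A4, A6 (helper58) -/

theorem a1 {H : Subgroup G} {aN : G → N →+ N} {aM : G → M →+ M} (i : N →+ M)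
    (hi : Function.Injective i) (he : ∀ g ∈ H, ∀ n, i (aN g n) = aM g (i n)) [Finite M]
    (h : FinSh X aM H) : FinSh X aN H := sorry

theorem a4 {H : Subgroup G} {a : G → M →+ M} (σ : G) (h : FinSh X a H) :
    FinSh X (fun g => a (σ⁻¹ * g * σ)) (H.map (MulAut.conj σ).toMonoidHom) := sorry

theorem a6 {H H' : Subgroup G} (hle : H' ≤ H) {a : G → M →+ M} (ha : Act H a) [Finite M]
    (hU : ∃ U : Subgroup G, IsOpen (U : Set G) ∧ U ⊓ H ≤ H') (h : FinSh X a H') :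
    FinSh X a H := sorry

/-! A2 (helper21) -/

theorem a2 {C : Subgroup G} {p : ℕ} [Fact p.Prime] (hA : ArithHyp X C p)
    {H : Subgroup G} (hH : H ≤ C) (hV : ∃ V : Subgroup G, IsOpen (V : Set G) ∧ V ⊓ C ≤ H)
    {a : G → M →+ M} (ha : Act H a) [Finite M] (hM : ∃ k : ℕ, ∀ m : M, p ^ k • m = 0)
    (U : Subgroup G) (hN : U.Normal) (hU : IsOpen (U : Set G))
    (hUa : ∀ u ∈ U ⊓ H, a u = AddMonoidHom.id M) :
    (Zsh X a H).relIndex (Zloc X a H U) ≠ 0 := sorry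

/-! A3 (helper58; from A2) -/

theorem a3 {C : Subgroup G} {p : ℕ} [Fact p.Prime] (hA : ArithHyp X C p)
    {H : Subgroup G} (hH : H ≤ C) (hV : ∃ V : Subgroup G, IsOpen (V : Set G) ∧ V ⊓ C ≤ H)
    {aN : G → N →+ N} {aM : G → M →+ M} {aQ : G → Q →+ Q}
    (hN : Act H aN) (hM : Act H aM) (hQ : Act H aQ) [Finite M]
    (hp : ∃ k : ℕ, ∀ m : M, p ^ k • m = 0) (i : N →+ M) (q : M →+ Q)
    (hi : Function.Injective i) (hq : Function.Surjective q)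
    (hex : ∀ m, q m = 0 ↔ ∃ n, i n = m) (hei : ∀ g ∈ H, ∀ n, i (aN g n) = aM g (i n))
    (heq : ∀ g ∈ H, ∀ m, q (aM g m) = aQ g (q m)) (h1 : FinSh X aN H) (h2 : FinSh X aQ H) :
    FinSh X aM H := sorry

/-! SH1, SH2 (Shapiro) -/

theorem sh1 {H : Subgroup G} {a : G → T →+ T} (ha : Act H a) [Finite T] {J : Type*} [Finite J]
    (π : G → J → J) (h1 : π 1 = id) (hm : ∀ g ∈ H, ∀ h ∈ H, π (g * h) = π g ∘ π h)
    (hc : ∃ U : Subgroup G, IsOpen (U : Set G) ∧ ∀ u ∈ U ⊓ H, π u = id) (j₀ : J)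
    (htr : ∀ j, ∃ h ∈ H, π h j₀ = j) {H' : Subgroup G}
    (hH' : ∀ g, g ∈ H' ↔ g ∈ H ∧ π g j₀ = j₀) (h : FinSh X a H') :
    FinSh X (indAct a π) H := sorry

theorem sh2 {H : Subgroup G}
    {a : G → T →+ T} (ha : Act H a) [Finite T] {J : Type*} [Finite J]
    (π : G → J → J) (h1 : π 1 = id) (hm : ∀ g ∈ H, ∀ h ∈ H, π (g * h) = π g ∘ π h)
    (hc : ∃ U : Subgroup G, IsOpen (U : Set G) ∧ ∀ u ∈ U ⊓ H, π u = id) (j₀ : J)
    (htr : ∀ j, ∃ h ∈ H, π h j₀ = j) {H' : Subgroup G}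
    (hH' : ∀ g, g ∈ H' ↔ g ∈ H ∧ π g j₀ = j₀) (h : FinSh X (indAct a π) H) :
    FinSh X a H' := sorry

end Frame

end Pool.Agent.Helper58.FS
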