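import Pool.Agent.Helper58.FS.Br
import Pool.Agent.Helper58.IQ.S2c

/-!
# Statements of the pieces C (not imported by anything)
-/

open scoped NumberField Pointwise

universe u

namespace Pool.Agent.Helper58.FS

open Pool.Agent.Helper58.IQ

namespace Frame

section abs

variable {G : Type*} [Group G] [TopologicalSpace G] [IsTopologicalGroup G] [CompactSpace G]
  (X : Type*) [MulAction G X] {M N T : Type*} [AddCommGroup M] [AddCommGroup N] [AddCommGroup T]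

/-- C1 (helper47). -/
theorem nil {C : Subgroup G} {p : ℕ} [Fact p.Prime] (hA : ArithHyp X C p)
    {H : Subgroup G} (hH : H ≤ C) (hV : ∃ V : Subgroup G, IsOpen (V : Set G) ∧ V ⊓ C ≤ H)
    {a : G → M →+ M} (ha : Act H a) [Finite M] (hp : ∃ k : ℕ, ∀ m : M, p ^ k • m = 0)
    (D : M →+ M) (hD : ∀ g ∈ H, ∀ m, D (a g m) = a g (D m)) (n : ℕ) (hn : ∀ m, D^[n] m = 0)
    {aN : G → N →+ N} (i : N →+ M) (hi : Function.Injective i) (hr : ∀ m, D m = 0 ↔ ∃ x, i x = m)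
    (he : ∀ g ∈ H, ∀ x, i (aN g x) = a g (i x)) (hN : Act H aN) (h : FinSh X aN H) :
    FinSh X a H := sorry

/-- C2 (helper47): a step of degree `p`. -/
theorem pstep {C : Subgroup G} {p : ℕ} [Fact p.Prime] (hA : ArithHyp X C p)
    {H H' : Subgroup G} (hH : H ≤ C) (hV : ∃ V : Subgroup G, IsOpen (V : Set G) ∧ V ⊓ C ≤ H)
    {a : G → T →+ T} (ha : Act H a) [Finite T] (hp : ∀ t : T, p • t = 0)
    (θ : G → ZMod p) (hθ : ∀ g ∈ H, ∀ h ∈ H, θ (g * h) = θ g + θ h) (hs : ∃ g ∈ H, θ g = 1)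
    (hc : ∃ U : Subgroup G, IsOpen (U : Set G) ∧ ∀ u ∈ U ⊓ H, θ u = 0)
    (hH' : ∀ g, g ∈ H' ↔ g ∈ H ∧ θ g = 0) (h : FinSh X a H) : FinSh X a H' := sorry

/-- C3 (helper21): a normal subgroup of `p`-power index. -/
theorem pchain {C : Subgroup G} {p : ℕ} [Fact p.Prime] (hA : ArithHyp X C p)
    {H H' : Subgroup G} (hH : H ≤ C) (hV : ∃ V : Subgroup G, IsOpen (V : Set G) ∧ V ⊓ C ≤ H)
    {a : G → T →+ T} (ha : Act H a) [Finite T] (hp : ∀ t : T, p • t = 0) (hle : H' ≤ H)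
    (hno : ∀ g ∈ H, ∀ h ∈ H', g * h * g⁻¹ ∈ H') (hi : ∃ k : ℕ, H'.relIndex H = p ^ k)
    (hU : ∃ U : Subgroup G, IsOpen (U : Set G) ∧ U ⊓ H ≤ H') (h : FinSh X a H) :
    FinSh X a H' := sorry

/-- C9 (helper58). -/
theorem swap {C : Subgroup G} (hC : C.Normal) {p : ℕ} [Fact p.Prime] (hA : ArithHyp X C p)
    {H L : Subgroup G} (hHo : IsOpen (H : Set G)) (hLo : IsOpen (L : Set G)) (hL : L ≤ H)
    (hno : ∀ g ∈ H, ∀ h ∈ L, g * h * g⁻¹ ∈ L) (hi : ∃ k : ℕ, L.relIndex H = p ^ k)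
    (σ : G) (hσ : L.map (MulAut.conj σ).toMonoidHom = L)
    {a : G → M →+ M} (ha : Act H a) [Finite M] (hp : ∀ t : M, p • t = 0)
    {b : G → N →+ N} (hb : Act H b) (e : M ≃+ N)
    (he : ∀ g ∈ L, ∀ m, e (a g m) = b (σ * g * σ⁻¹) (e m)) :
    FinSh X a (H ⊓ C) ↔ FinSh X b (H ⊓ C) := sorry

end abs

section gal

variable {K : Type*} [Field K] [NumberField K] (p : ℕ) [Fact p.Prime]

/-- AR4 (helper98). -/
theorem arith {Ω : Type*} [Field Ω] [CharZero Ω] [IsAlgClosed Ω] [Algebra.IsAlgebraic ℚ Ω]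
    (hp : p ≠ 2) : ArithHyp (Prm Ω) (Cyc Ω p) p := sorry

/-! C6 (helper3): the bridge. `hρ` says that `ρ` is continuous. -/

theorem fin_iff {M : Type*} [AddCommGroup M] [Finite M] (ρ : GK K →* AddMonoid.End M)
    (hρ : ∀ x : M, IsOpen {g : GK K | ρ g x = x}) (H : Subgroup (GK K)) :
    FinSel ρ H ↔ FinSh (Prm (Kb K)) (extAct ρ) (H.map (toQ K)) := sorry

theorem gcyc_map : (Gcyc K p).map (toQ K) = (toQ K).range ⊓ Cyc (Kb K) p := sorry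

theorem act_ext {M : Type*} [AddCommGroup M] [Finite M] (ρ : GK K →* AddMonoid.End M)
    (hρ : ∀ x : M, IsOpen {g : GK K | ρ g x = x}) (H : Subgroup (GK K)) :
    Act (H.map (toQ K)) (extAct ρ) := sorry

theorem isOpen_map (L : Subgroup (GK K)) (hL : IsOpen (L : Set (GK K))) :
    IsOpen ((L.map (toQ K) : Subgroup (GQ (Kb K))) : Set (GQ (Kb K))) := sorry

/-! C6b (helper99): consequences of `a1`, `a3`, `arith` and C6; `sel_iso` is direct. -/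

theorem sel_iso {M N : Type*} [AddCommGroup M] [AddCommGroup N] {ρ : GK K →* AddMonoid.End M}
    {σ : GK K →* AddMonoid.End N} (h : Iso ρ σ) (H : Subgroup (GK K)) :
    FinSel ρ H ↔ FinSel σ H := sorry

theorem sel_sub {M : Type*} [AddCommGroup M] [Finite M] (ρ : GK K →* AddMonoid.End M)
    (hρ : ∀ x : M, IsOpen {g : GK K | ρ g x = x}) (N : AddSubgroup M)
    (hN : ∀ g, ∀ x ∈ N, ρ g x ∈ N) (H : Subgroup (GK K)) (h : FinSel ρ H) :
    FinSel (subRep ρ N hN) H := sorry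

theorem sel_ext (hp : p ≠ 2) {M : Type*} [AddCommGroup M] [Finite M]
    (ρ : GK K →* AddMonoid.End M) (hρ : ∀ x : M, IsOpen {g : GK K | ρ g x = x})
    (hk : ∃ k : ℕ, ∀ x : M, p ^ k • x = 0) (N : AddSubgroup M)
    (hN : ∀ g, ∀ x ∈ N, ρ g x ∈ N) (L : Subgroup (GK K)) (hL : IsOpen (L : Set (GK K)))
    (h1 : FinSel (subRep ρ N hN) (L ⊓ Gcyc K p)) (h2 : FinSel (quoRep ρ N hN) (L ⊓ Gcyc K p)) :
    FinSel ρ (L ⊓ Gcyc K p) := sorry

end gal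

/-! C5 (helper69): devissage for isogenies, general `p`. -/

theorem devis {G : Type*} [Group G] [TopologicalSpace G] {p : ℕ} [Fact p.Prime]
    (P : ∀ (M : Type u) [AddCommGroup M], (G →* AddMonoid.End M) → Prop)
    (hiso : ∀ (M N : Type u) [AddCommGroup M] [AddCommGroup N] (ρ : G →* AddMonoid.End M)
      (σ : G →* AddMonoid.End N), Iso ρ σ → P M ρ → P N σ)
    (hsub : ∀ (M : Type u) [AddCommGroup M] [Finite M] (ρ : G →* AddMonoid.End M)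
      (N : AddSubgroup M) (hN : ∀ g, ∀ x ∈ N, ρ g x ∈ N),
      (∀ x : M, IsOpen {g : G | ρ g x = x}) → P M ρ → P N (subRep ρ N hN))
    (hext : ∀ (M : Type u) [AddCommGroup M] [Finite M] (ρ : G →* AddMonoid.End M)
      (N : AddSubgroup M) (hN : ∀ g, ∀ x ∈ N, ρ g x ∈ N),
      (∀ x : M, IsOpen {g : G | ρ g x = x}) → (∃ k : ℕ, ∀ x : M, p ^ k • x = 0) →
      P N (subRep ρ N hN) → P (M ⧸ N) (quoRep ρ N hN) → P M ρ)
    {A B : Type u} [AddCommGroup A] [AddCommGroup B] (ρ : G →* AddMonoid.End A)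
    (σ : G →* AddMonoid.End B) (hρ : ∀ x : A, IsOpen {g : G | ρ g x = x})
    (hσ : ∀ x : B, IsOpen {g : G | σ g x = x}) (φ : A →+ B) (hφ : Function.Surjective φ)
    (hφk : Finite φ.ker) (hφe : ∀ g x, φ (ρ g x) = σ g (φ x)) (ψ : B →+ A)
    (hψ : Function.Surjective ψ) (hψk : Finite ψ.ker)
    (A₁ : AddSubgroup A) (hA₁ : ∀ x, x ∈ A₁ ↔ p • x = 0) (hA₁s : ∀ g, ∀ x ∈ A₁, ρ g x ∈ A₁)
    (B₁ : AddSubgroup B) (hB₁ : ∀ x, x ∈ B₁ ↔ p • x = 0) (hB₁s : ∀ g, ∀ x ∈ B₁, σ g x ∈ B₁)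
    (T : AddSubgroup A) (hT : T ≤ A₁) (hTs : ∀ g, ∀ x ∈ T, ρ g x ∈ T) (hTc : Nat.card T = p)
    (hQc : Nat.card (A₁ ⧸ T.addSubgroupOf A₁) = p)
    (hsw : P T (subRep ρ T hTs) ↔
      P (A₁ ⧸ T.addSubgroupOf A₁) (quoRep (subRep ρ A₁ hA₁s) (T.addSubgroupOf A₁)
        (fun g x hx => hTs g x hx))) :
    P A₁ (subRep ρ A₁ hA₁s) ↔ P B₁ (subRep σ B₁ hB₁s) := sorry

/-! C7 (helper27): `E[3]` and functions on the cube roots of `δ`. -/

theorem cubic {K : Type*} [Field K] [NumberField K] {M : Type*} [AddCommGroup M]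
    (ρ : GK K →* AddMonoid.End M) (hρ : ∀ x : M, IsOpen {g : GK K | ρ g x = x}) (t w : M)
    (χ : GK K →* ℤˣ) (θ : Kb K) (δ : K) (hθ : θ ^ 3 = algebraMap K (Kb K) δ)
    (hδ : ∀ c : K, c ^ 3 ≠ δ) (h3 : ∃ g : GK K, qch (-3 : K) g ≠ 1)
    (hf : Form ρ t w χ (χ * qch (-3 : K)) (kk θ)) :
    FinSel ρ (Gcyc K 3) ↔
      FinSel (chRep χ) ((IntermediateField.adjoin K {θ}).fixingSubgroup ⊓ Gcyc K 3) := sorry

end Frame

end Pool.Agent.Helper58.FS
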