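import Pool.Agent.Helper58.FS.CS
import Pool.Agent.Helper58.FS.Br
import Pool.Agent.Helper58.FS.Inf

/-!
# Statements of the pieces D (not imported by anything)
-/

open scoped NumberField Pointwise

namespace Pool.Agent.Helper58.FS

open Pool.Agent.Helper58.IQ

namespace Frame

/-! D1 (helper69): translation by a point of order `p` does not fix a point modulo a good prime. -/

theorem star {F : Type*} [Field F] (A : ValuationSubring F) {c d x y a b x' y' : F} (hc : c ∈ A)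
    (hd : d ∈ A) (hΔ : (4 * c ^ 3 + 27 * d ^ 2)⁻¹ ∈ A) (hΔ0 : 4 * c ^ 3 + 27 * d ^ 2 ≠ 0)
    (h2 : (2 : F)⁻¹ ∈ A) (h20 : (2 : F) ≠ 0)
    (hU : y ^ 2 = x ^ 3 + c * x + d) (hT : b ^ 2 = a ^ 3 + c * a + d) (ha : a ∈ A) (hb : b ∈ A)
    (hb' : b⁻¹ ∈ A) (hb0 : b ≠ 0) (hxa : x ≠ a) (hx' : x' = ((y - b) / (x - a)) ^ 2 - x - a)
    (hy' : y' = -(y + (y - b) / (x - a) * (x' - x))) : ¬ Cong A x y x' y' := sorry

/-! D1a (helper3): the local ring of a prime of the ring of all algebraic integers is a valuation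
ring. -/

theorem val {K : Type*} [Field K] [NumberField K] (P : Ideal (𝓞 (Kb K))) (hP : P.IsPrime)
    (h0 : P ≠ ⊥) : ∃ A : ValuationSubring (Kb K),
      (∀ x, x ∈ A ↔ ∃ s t : 𝓞 (Kb K), t ∉ P ∧ x = (s : Kb K) / t) ∧
      ∀ x, A.valuation x < 1 ↔ ∃ s t : 𝓞 (Kb K), s ∈ P ∧ t ∉ P ∧ x = (s : Kb K) / t := sorry

/-! D1b (helper3): a nonzero element is a unit at almost all primes. -/

theorem unit_almost {K : Type*} [Field K] [NumberField K] (z : Kb K) (hz : z ≠ 0) :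
    ∃ N : ℕ, N ≠ 0 ∧ ∀ P : Ideal (𝓞 (Kb K)), P.IsPrime → (N : 𝓞 (Kb K)) ∉ P →
      ∃ s t : 𝓞 (Kb K), s ∉ P ∧ t ∉ P ∧ z = (s : Kb K) / t := sorry

/-! D2 (helper99): almost all primes are unramified in the field of all points of `p`-power
order; from D1, D1a, D1b. -/

theorem nos {K : Type*} [Field K] [NumberField K] (W : WeierstrassCurve K) (hW : W.Δ ≠ 0) {p : ℕ}
    (hp : p.Prime) (hp2 : p ≠ 2) (hf : Finite (torp p W)) :
    ∃ N : ℕ, N ≠ 0 ∧ ∀ P : Ideal (𝓞 (Kb K)), P.IsPrime → P ≠ ⊥ → (N : 𝓞 (Kb K)) ∉ P →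
      ∀ g ∈ inert P, ∀ Q : Pts W, Q ∈ torInf p W → ptsRep W g Q = Q := sorry

/-! D3 (helper98): decomposition groups modulo inertia. -/

theorem inertia_lift {Ω : Type*} [Field Ω] [CharZero Ω] [IsAlgClosed Ω] [Algebra.IsAlgebraic ℚ Ω]
    (p : ℕ) [Fact p.Prime] (hp : p ≠ 2) (P : Prm Ω) (hpP : (p : 𝓞 Ω) ∉ P.1) (U : Subgroup (GQ Ω))
    (hN : U.Normal) (hU : IsOpen (U : Set (GQ Ω))) (h : GQ Ω) (hC : h ∈ Cyc Ω p) (hP : h • P = P) :
    ∃ e : ℕ, e.Coprime p ∧ ∃ ι : GQ Ω, ι ∈ Cyc Ω p ∧ (∀ x : 𝓞 Ω, ι • x - x ∈ P.1) ∧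
      h ^ e * ι⁻¹ ∈ U := sorry

section abs

variable {G : Type*} [Group G] [TopologicalSpace G] [IsTopologicalGroup G] [CompactSpace G]
  (X : Type*) [MulAction G X] {M A : Type*} [AddCommGroup M] [AddCommGroup A]

/-- D4a (helper21). -/
theorem lk1 {H : Subgroup G} {a : G → M →+ M} (ha : ActP H a) {p : ℕ} [Fact p.Prime]
    (hM : ∀ m : M, ∃ n : ℕ, p ^ n • m = 0) [Finite A] (i : A →+ M) (hi : Function.Injective i)
    (hr : ∀ m, p • m = 0 ↔ ∃ x, i x = m) {b : G → A →+ A} (hb : Act H b)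
    (he : ∀ g ∈ H, ∀ x, i (b g x) = a g (i x)) (h : FinShp X a H p) : FinSh X b H := sorry

/-- D4b (helper47). -/
theorem lk2 {H : Subgroup G} {a : G → M →+ M} (ha : ActP H a) {p : ℕ} [Fact p.Prime]
    (hM : ∀ m : M, ∃ n : ℕ, p ^ n • m = 0) [Finite A] (i : A →+ M) (hi : Function.Injective i)
    (hr : ∀ m, p • m = 0 ↔ ∃ x, i x = m) {b : G → A →+ A} (hb : Act H b)
    (he : ∀ g ∈ H, ∀ x, i (b g x) = a g (i x)) (hA : ArithInf X H a p) (h : FinSh X b H) :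
    FinShp X a H p := sorry

end abs

/-! D5 (helper3 or whoever is free): Pontryagin duality. -/

theorem pd {p : ℕ} [Fact p.Prime] {R : Type*} [AddCommGroup R]
    (hR : ∀ x : R, ∃ n : ℕ, p ^ n • x = 0) :
    Module.Finite ℤ_[p] (R →+ QZ p) ↔ Finite {x : R // p • x = 0} := sorry

/-! D6 (helper3): the bridge for infinite modules. -/

section gal

variable {K : Type*} [Field K] [NumberField K] {p : ℕ} [Fact p.Prime]

theorem finp_iff {M : Type*} [AddCommGroup M] (ρ : GK K →* AddMonoid.End M)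
    (hρ : ∀ x : M, IsOpen {g : GK K | ρ g x = x}) (H : Subgroup (GK K)) (p : ℕ) :
    Finite {x : Sel ρ H // p • x = 0} ↔
      FinShp (Prm (Kb K)) (extAct ρ) (H.map (toQ K)) p := sorry

theorem act_extP {M : Type*} [AddCommGroup M] (ρ : GK K →* AddMonoid.End M)
    (hρ : ∀ x : M, IsOpen {g : GK K | ρ g x = x}) (H : Subgroup (GK K)) :
    ActP (H.map (toQ K)) (extAct ρ) := sorry

theorem sel_tors (W : WeierstrassCurve K) (x : FineSelmer p W) : ∃ n : ℕ, p ^ n • x = 0 := sorry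

/-! D7 (helper98): from D2, D3, ar3c. -/

theorem arith_inf (hp : p ≠ 2) (W : WeierstrassCurve K) (hW : W.Δ ≠ 0)
    (hf : Finite (torp p W)) : ArithInf (Prm (Kb K)) ((toQ K).range ⊓ Cyc (Kb K) p)
      (extAct (torInfRep p W)) p := sorry

/-! D9 (helper69): finiteness of the torsion of an isogenous curve. -/

theorem finite_torp (W W' : WeierstrassCurve K) (φ : Pts W →+ Pts W')
    (hφ : Function.Surjective φ) (hk : Finite φ.ker) (hf : Finite (torp p W)) :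
    Finite (torp p W') := sorry

end gal

end Frame

end Pool.Agent.Helper58.FS
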