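import Pool.Agent.Helper58.FS.Tplus
import Pool.Agent.Helper98.FS.ArithInf
import Pool.Agent.Helper69.FS.Nos2
import Pool.Agent.Helper99.FS.Pd
import Pool.Agent.Helper47.FS.Lk2
import Pool.Agent.Helper3.FS.BridgeP
import Pool.Agent.Helper21.FS.LK

/-!
# Conjecture A of Coates and Sujatha and the fine Selmer group of `W[p]`
-/

open scoped NumberField Pointwise

universe u

namespace Pool.Agent.Helper58.FS

open Pool.Agent.Helper58.IQ

theorem link {K : Type u} [Field K] [NumberField K] {p : ℕ} [Fact p.Prime] (hp : p ≠ 2)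
    (W : WeierstrassCurve K) (hW : W.Δ ≠ 0) (hf : Finite (torp p W)) :
    ConjCS p W ↔ FinSel (torpRep p W) (Gcyc K p) := by
  have := alg_Q K
  have := compact_GQ K
  have hcI : ∀ x : torInf p W, IsOpen {g : GK K | torInfRep p W g x = x} :=
    sub_cont (Pool.Agent.Helper99.IS.cont_pts W) _ (stab_torInf p W)
  have hc1 : ∀ x : torp p W, IsOpen {g : GK K | torpRep p W g x = x} :=
    sub_cont (Pool.Agent.Helper99.IS.cont_pts W) _ (stab_torp p W)
  have hle : torp p W ≤ torInf p W := fun P hP => ⟨1, by rw [pow_one]; exact hP⟩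
  have hM : ∀ m : torInf p W, ∃ n : ℕ, p ^ n • m = 0 := by
    rintro ⟨m, n, hn⟩
    exact ⟨n, Subtype.ext hn⟩
  have hr : ∀ m : torInf p W, p • m = 0 ↔ ∃ x, AddSubgroup.inclusion hle x = m := by
    intro m
    constructor
    · intro h
      exact ⟨⟨m, congrArg Subtype.val h⟩, rfl⟩
    · rintro ⟨x, rfl⟩
      exact Subtype.ext x.2
  have hi : Function.Injective (AddSubgroup.inclusion hle) := AddSubgroup.inclusion_injective hle
  have he : ∀ g ∈ (Gcyc K p).map (toQ K), ∀ x, AddSubgroup.inclusion hle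
      (extAct (torpRep p W) g x) = extAct (torInfRep p W) g (AddSubgroup.inclusion hle x) := by
    rintro _ ⟨g, -, rfl⟩ x
    rw [extAct_toQ, extAct_toQ]
    rfl
  have hA := Pool.Agent.Helper98.FS.arith_inf hp W
    (Pool.Agent.Helper69.FS.nos W hW Fact.out hp hf)
  rw [← Pool.Agent.Helper3.FS.gcyc_map] at hA
  unfold ConjCS
  rw [Pool.Agent.Helper99.FS.Pd.pd (Pool.Agent.Helper3.FS.sel_tors W), Pool.Agent.Helper3.FS.finp_iff _ hcI,
    Pool.Agent.Helper3.FS.fin_iff _ hc1]
  have haP := Pool.Agent.Helper3.FS.act_extP (torInfRep p W) hcI (Gcyc K p)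
  have haA := Pool.Agent.Helper3.FS.act_ext (torpRep p W) hc1 (Gcyc K p)
  exact ⟨Pool.Agent.Helper21.FS.lk1 _ haP hM _ hi hr haA he,
    Pool.Agent.Helper47.FS.lk2 _ haP hM _ hi hr haA he hA⟩

end Pool.Agent.Helper58.FS
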