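import Pool.Agent.Helper58.FS.Tplus
import Pool.Agent.Helper58.P3.Base
import Pool.Agent.Helper69.FS.Devis

/-!
# Isogeny invariance in the conjugate case
-/

open scoped NumberField Pointwise

universe u

namespace Pool.Agent.Helper58.FS

open Pool.Agent.Helper58.IQ

theorem tplus {K : Type u} [Field K] [NumberField K] {p : ℕ} [Fact p.Prime] (hp : p ≠ 2)
    (W : WeierstrassCurve K) (T : AddSubgroup (Pts W)) (hs : Stab W T) (hT : T ≤ torp p W)
    (hc : Nat.card T = p) (L : IntermediateField K (Kb K)) [FiniteDimensional K L]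
    [IsGalois K L] (hL : ∃ k : ℕ, Module.finrank K L = p ^ k) (σ : Kb K ≃+* Kb K)
    (hσ : ∀ x, σ x ∈ L ↔ x ∈ L) (h : ConjOver L σ (lineRep W T hs) (quopRep p W T hs))
    (W' : WeierstrassCurve K) (hI : IsogBoth W W') :
    FinSel (torpRep p W) (Gcyc K p) ↔ FinSel (torpRep p W') (Gcyc K p) := by
  obtain ⟨⟨φ, hφ⟩, ⟨ψ, hψ⟩⟩ := hI
  have hfT : Finite T := Nat.finite_of_card_ne_zero (by
    rw [hc]
    exact (Fact.out : p.Prime).ne_zero)
  have hQc : Nat.card (torp p W ⧸ T.addSubgroupOf (torp p W)) = p := by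
    obtain ⟨e, -⟩ := h
    rw [← Nat.card_congr e.toEquiv, hc]
  have hkT : ∀ x : T, p • x = 0 := fun x => Subtype.ext (hT x.2)
  exact Pool.Agent.Helper69.FS.devis (G := GK K) (p := p) (fun M _ ρ => FinSel ρ (Gcyc K p))
    (fun M N _ _ ρ σ h hM => (Pool.Agent.Helper99.FS.sel_iso h _).1 hM)
    (fun M _ _ ρ N hN hρ hM => Pool.Agent.Helper99.FS.sel_sub ρ hρ N hN _ hM)
    (fun M _ _ ρ N hN hρ hk h1 h2 => by
      have := Pool.Agent.Helper58.P3.sel_ext hp ρ hρ hk N hN ⊤ isOpen_univ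
      rw [top_inf_eq] at this
      exact this h1 h2)
    (ptsRep W) (ptsRep W') (Pool.Agent.Helper99.IS.cont_pts W)
    (Pool.Agent.Helper99.IS.cont_pts W') φ hφ.surj hφ.fin hφ.equivariant ψ hψ.surj hψ.fin
    (torp p W) (fun _ => Iff.rfl) (stab_torp p W) (torp p W') (fun _ => Iff.rfl)
    (stab_torp p W') T hT hs hc hQc
    (sel_conj hp _ _ (sub_cont (Pool.Agent.Helper99.IS.cont_pts W) T hs)
      (quo_cont (sub_cont (Pool.Agent.Helper99.IS.cont_pts W) _ (stab_torp p W)) _ _)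
      hkT L hL σ hσ h)

end Pool.Agent.Helper58.FS
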