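import Pool.Agent.Helper58.FS.Main
import Pool.Agent.Helper58.FS.Link

/-!
# Isogeny invariance of Conjecture A of Coates and Sujatha in the conjugate case
-/

open scoped NumberField Pointwise

universe u

namespace Pool.Agent.Helper58.FS

open Pool.Agent.Helper58.IQ

theorem tplusCS {K : Type u} [Field K] [NumberField K] {p : ℕ} [Fact p.Prime] (hp : p ≠ 2)
    (W : WeierstrassCurve K) (hW : W.Δ ≠ 0) (T : AddSubgroup (Pts W)) (hs : Stab W T)
    (hT : T ≤ torp p W) (hc : Nat.card T = p) (L : IntermediateField K (Kb K))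
    [FiniteDimensional K L] [IsGalois K L] (hL : ∃ k : ℕ, Module.finrank K L = p ^ k)
    (σ : Kb K ≃+* Kb K) (hσ : ∀ x, σ x ∈ L ↔ x ∈ L)
    (h : ConjOver L σ (lineRep W T hs) (quopRep p W T hs))
    (W' : WeierstrassCurve K) (hW' : W'.Δ ≠ 0) (hI : IsogBoth W W') :
    ConjCS p W ↔ ConjCS p W' := by
  have hfT : Finite T := Nat.finite_of_card_ne_zero (by
    rw [hc]
    exact (Fact.out : p.Prime).ne_zero)
  have hfQ : Finite (torp p W ⧸ T.addSubgroupOf (torp p W)) := by
    obtain ⟨e, -⟩ := h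
    exact Finite.of_equiv T e.toEquiv
  have hfS : Finite (T.addSubgroupOf (torp p W)) := by
    refine Finite.of_injective (fun x => (⟨x.1.1, x.2⟩ : T)) ?_
    intro x y hxy
    have h1 : (x.1.1 : Pts W) = y.1.1 := congrArg (fun z : T => (z : Pts W)) hxy
    exact Subtype.ext (Subtype.ext h1)
  have hf : Finite (torp p W) := by
    have h1 := AddSubgroup.card_eq_card_quotient_mul_card_addSubgroup
      (T.addSubgroupOf (torp p W))
    apply Nat.finite_of_card_ne_zero
    rw [h1]
    exact mul_ne_zero Nat.card_pos.ne' Nat.card_pos.ne'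
  obtain ⟨φ, hφ⟩ := hI.1
  have hf' : Finite (torp p W') :=
    Pool.Agent.Helper69.FS.finite_torp W W' φ hφ.surj hφ.fin hf
  rw [link hp W hW hf, link hp W' hW' hf']
  exact tplus hp W T hs hT hc L hL σ hσ h W' hI

end Pool.Agent.Helper58.FS
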