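import Pool.Agent.Helper58.FS.Defs

/-!
# The primes of an algebraic closure of ℚ
-/

open scoped NumberField Pointwise

namespace Pool.Agent.Helper58.FS

/-- The automorphism group of an algebraic closure `Ω` of `ℚ`. -/
abbrev GQ (Ω : Type*) [Field Ω] [CharZero Ω] := Ω ≃ₐ[ℚ] Ω

/-- The Galois group of `Ω` over the cyclotomic `ℤ_p`-extension of `ℚ` (`p` odd). -/
noncomputable def Cyc (Ω : Type*) [Field Ω] [CharZero Ω] (p : ℕ) [Fact p.Prime] :
    Subgroup (GQ Ω) :=
  ((powMonoidHom (p - 1)).comp ((cyclotomicCharacter Ω p).comp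
    (MulSemiringAction.toRingAut (GQ Ω) Ω))).ker

/-- The nonzero primes of the ring of integers of `Ω`. -/
abbrev Prm (Ω : Type*) [Field Ω] [CharZero Ω] := {P : Ideal (𝓞 Ω) // P.IsPrime ∧ P ≠ ⊥}

/-- The action on primes. -/
noncomputable instance (Ω : Type*) [Field Ω] [CharZero Ω] : MulAction (GQ Ω) (Prm Ω) where
  smul g P := ⟨g • P.1, by
    refine ⟨?_, fun h => P.2.2 ?_⟩
    · have := P.2.1
      exact Ideal.IsPrime.smul g
    · rw [← inv_smul_smul g P.1, h]
      exact smul_zero _⟩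
  one_smul P := Subtype.ext (one_smul _ P.1)
  mul_smul g h P := Subtype.ext (mul_smul g h P.1)

theorem smul_prm {Ω : Type*} [Field Ω] [CharZero Ω] (g : GQ Ω) (P : Prm Ω) :
    (g • P).1 = g • P.1 := rfl

end Pool.Agent.Helper58.FS
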