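import Pool.Agent.Helper21.FS.PCh
import Pool.Agent.Helper99.FS.A146

/-!
# Two modules that are conjugate over a normal extension of `p`-power degree
-/

namespace Pool.Agent.Helper58.FS

theorem Act.mono {G : Type*} [Group G] [TopologicalSpace G] {M : Type*} [AddCommGroup M]
    {H H' : Subgroup G} {a : G → M →+ M} (ha : Act H a) (h : H' ≤ H) : Act H' a where
  one := ha.one
  mul := fun g hg k hk => ha.mul g (h hg) k (h hk)
  cont := by
    obtain ⟨U, hU, hU'⟩ := ha.cont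
    exact ⟨U, hU, fun u hu => hU' u ⟨hu.1, h hu.2⟩⟩

theorem relIndex_pow {G : Type*} [Group G] {C H L : Subgroup G} {p : ℕ} [Fact p.Prime]
    (hno : ∀ g ∈ H, ∀ h ∈ L, g * h * g⁻¹ ∈ L) (hi : ∃ k : ℕ, L.relIndex H = p ^ k) :
    ∃ k : ℕ, (L ⊓ C).relIndex (H ⊓ C) = p ^ k := by
  obtain ⟨k, hk⟩ := hi
  have hn : (L.subgroupOf H).Normal := by
    constructor
    intro x hx g
    exact hno g g.2 x hx
  have h1 : (L ⊓ C).relIndex (H ⊓ C) = (L.subgroupOf H).relIndex ((H ⊓ C).subgroupOf H) := by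
    rw [Subgroup.relIndex_subgroupOf inf_le_left]
    apply le_antisymm
    all_goals
      apply le_of_eq
      unfold Subgroup.relIndex
      congr 1
    · ext x
      simp only [Subgroup.mem_subgroupOf, Subgroup.mem_inf]
      exact ⟨fun h => h.1, fun h => ⟨h, x.2.2⟩⟩
    · ext x
      simp only [Subgroup.mem_subgroupOf, Subgroup.mem_inf]
      exact ⟨fun h => ⟨h, x.2.2⟩, fun h => h.1⟩
  have h2 : (L.subgroupOf H).relIndex ((H ⊓ C).subgroupOf H) ∣ p ^ k := by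
    rw [← hk]
    exact Subgroup.relIndex_dvd_index_of_normal _ _
  rw [← h1] at h2
  obtain ⟨j, -, hj⟩ := (Nat.dvd_prime_pow Fact.out).1 h2
  exact ⟨j, hj⟩

variable {G : Type*} [Group G] [TopologicalSpace G] [IsTopologicalGroup G] [CompactSpace G]
  (X : Type*) [MulAction G X] {M N : Type*} [AddCommGroup M] [AddCommGroup N]

theorem swap_mp {C : Subgroup G} (hC : C.Normal) {p : ℕ} [Fact p.Prime] (hA : ArithHyp X C p)
    {H L : Subgroup G} (hHo : IsOpen (H : Set G)) (hLo : IsOpen (L : Set G)) (hL : L ≤ H)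
    (hno : ∀ g ∈ H, ∀ h ∈ L, g * h * g⁻¹ ∈ L) (hi : ∃ k : ℕ, L.relIndex H = p ^ k)
    (σ : G) (hσ : ∀ g, σ * g * σ⁻¹ ∈ L ↔ g ∈ L)
    {a : G → M →+ M} (ha : Act H a) [Finite M] (hp : ∀ t : M, p • t = 0)
    {b : G → N →+ N} (hb : Act H b) (e : M ≃+ N)
    (he : ∀ g ∈ L, ∀ m, e (a g m) = b (σ * g * σ⁻¹) (e m)) (h : FinSh X a (H ⊓ C)) :
    FinSh X b (H ⊓ C) := by
  have : Finite N := Finite.of_equiv M e.toEquiv
  have hle : L ⊓ C ≤ H ⊓ C := inf_le_inf_right C hL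
  have h1 : FinSh X a (L ⊓ C) := by
    apply Pool.Agent.Helper21.FS.pchain X hA inf_le_right ⟨H, hHo, le_rfl⟩ (ha.mono inf_le_left) hp hle
      _ (relIndex_pow hno hi) ⟨L, hLo, fun x hx => ⟨hx.1, hx.2.2⟩⟩ h
    intro g hg x hx
    exact ⟨hno g hg.1 x hx.1, hC.conj_mem x hx.2 g⟩
  have h2 := Pool.Agent.Helper99.FS.a4 X σ h1
  have h3 : (L ⊓ C).map (MulAut.conj σ).toMonoidHom = L ⊓ C := by
    ext x
    simp only [Subgroup.mem_map, MulEquiv.coe_toMonoidHom, MulAut.conj_apply]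
    constructor
    · rintro ⟨y, hy, rfl⟩
      exact ⟨(hσ y).2 hy.1, hC.conj_mem y hy.2 σ⟩
    · intro hx
      refine ⟨σ⁻¹ * x * σ, ⟨?_, ?_⟩, by group⟩
      · refine (hσ _).1 ?_
        have : σ * (σ⁻¹ * x * σ) * σ⁻¹ = x := by group
        rw [this]
        exact hx.1
      · have := hC.conj_mem x hx.2 σ⁻¹
        rwa [inv_inv] at this
  rw [h3] at h2
  have h4 : FinSh X b (L ⊓ C) := by
    apply Pool.Agent.Helper99.FS.a1 X (e.symm : N →+ M) e.symm.injective _ h2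
    intro g hg n
    have hg' : σ⁻¹ * g * σ ∈ L := by
      refine (hσ _).1 ?_
      have : σ * (σ⁻¹ * g * σ) * σ⁻¹ = g := by group
      rw [this]
      exact hg.1
    have h5 := he _ hg' (e.symm n)
    have h6 : σ * (σ⁻¹ * g * σ) * σ⁻¹ = g := by group
    rw [h6, AddEquiv.apply_symm_apply] at h5
    change e.symm (b g n) = a (σ⁻¹ * g * σ) (e.symm n)
    rw [← h5, AddEquiv.symm_apply_apply]
  exact Pool.Agent.Helper99.FS.a6 X hle ⟨L, hLo, fun x hx => ⟨hx.1, hx.2.2⟩⟩ h4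

theorem swap {C : Subgroup G} (hC : C.Normal) {p : ℕ} [Fact p.Prime] (hA : ArithHyp X C p)
    {H L : Subgroup G} (hHo : IsOpen (H : Set G)) (hLo : IsOpen (L : Set G)) (hL : L ≤ H)
    (hno : ∀ g ∈ H, ∀ h ∈ L, g * h * g⁻¹ ∈ L) (hi : ∃ k : ℕ, L.relIndex H = p ^ k)
    (σ : G) (hσ : ∀ g, σ * g * σ⁻¹ ∈ L ↔ g ∈ L)
    {a : G → M →+ M} (ha : Act H a) [Finite M] (hp : ∀ t : M, p • t = 0)
    {b : G → N →+ N} (hb : Act H b) (e : M ≃+ N)
    (he : ∀ g ∈ L, ∀ m, e (a g m) = b (σ * g * σ⁻¹) (e m)) :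
    FinSh X a (H ⊓ C) ↔ FinSh X b (H ⊓ C) := by
  have : Finite N := Finite.of_equiv M e.toEquiv
  refine ⟨swap_mp X hC hA hHo hLo hL hno hi σ hσ ha hp hb e he, ?_⟩
  apply swap_mp X hC hA hHo hLo hL hno hi σ⁻¹ _ hb _ ha e.symm
  · intro g hg n
    have hg' : σ⁻¹ * g * σ ∈ L := by
      refine (hσ _).1 ?_
      have : σ * (σ⁻¹ * g * σ) * σ⁻¹ = g := by group
      rw [this]
      exact hg
    have h5 := he _ hg' (e.symm n)
    have h6 : σ * (σ⁻¹ * g * σ) * σ⁻¹ = g := by group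
    rw [h6, AddEquiv.apply_symm_apply] at h5
    rw [inv_inv, ← h5, AddEquiv.symm_apply_apply]
  · intro g
    have h1 := hσ (σ⁻¹ * g * σ⁻¹⁻¹)
    have : σ * (σ⁻¹ * g * σ⁻¹⁻¹) * σ⁻¹ = g := by group
    rw [this] at h1
    exact h1.symm
  · intro n
    have := congrArg e (hp (e.symm n))
    rwa [map_nsmul, AddEquiv.apply_symm_apply, map_zero] at this

end Pool.Agent.Helper58.FS
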