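import Pool.Agent.Helper58.FS.CurveP
import Pool.Agent.Helper58.FS.Swap
import Pool.Agent.Helper99.IS.Hilbert90
import Pool.Agent.Helper3.FS.Ar3
import Pool.Agent.Helper3.FS.Bridge
import Pool.Agent.Helper98.FS.Arith

/-!
# The conjugate case
-/

open scoped NumberField Pointwise

universe u

namespace Pool.Agent.Helper58.FS

open Pool.Agent.Helper58.IQ

theorem ratAlgEquiv {Ω : Type*} [Field Ω] [CharZero Ω] (σ : Ω ≃+* Ω) :
    ∃ s : GQ Ω, ∀ x, s x = σ x :=
  ⟨AlgEquiv.ofRingEquiv (f := σ) (fun q => by simp), fun x => rfl⟩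

theorem cyc_normal (Ω : Type*) [Field Ω] [CharZero Ω] (p : ℕ) [Fact p.Prime] :
    (Cyc Ω p).Normal := by
  unfold Cyc
  infer_instance

theorem sub_cont {G : Type*} [Group G] [TopologicalSpace G] {M : Type*} [AddCommGroup M]
    {ρ : G →* AddMonoid.End M} (hρ : ∀ x : M, IsOpen {g : G | ρ g x = x}) (N : AddSubgroup M)
    (hN : ∀ g, ∀ x ∈ N, ρ g x ∈ N) (x : N) : IsOpen {g : G | subRep ρ N hN g x = x} := by
  have : {g : G | subRep ρ N hN g x = x} = {g : G | ρ g (x : M) = x} := by
    ext g
    exact Subtype.ext_iff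
  rw [this]
  exact hρ x

theorem quo_cont {G : Type*} [Group G] [TopologicalSpace G] [IsTopologicalGroup G]
    {M : Type*} [AddCommGroup M]
    {ρ : G →* AddMonoid.End M} (hρ : ∀ x : M, IsOpen {g : G | ρ g x = x}) (N : AddSubgroup M)
    (hN : ∀ g, ∀ x ∈ N, ρ g x ∈ N) (x : M ⧸ N) : IsOpen {g : G | quoRep ρ N hN g x = x} := by
  induction x using QuotientAddGroup.induction_on with
  | H x =>
    let S : Subgroup G :=
      { carrier := {g : G | ρ g x = x}
        one_mem' := by
          change ρ 1 x = x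
          rw [map_one]
          rfl
        mul_mem' := by
          intro g h hg hh
          change ρ (g * h) x = x
          rw [map_mul]
          change ρ g (ρ h x) = x
          rw [show ρ h x = x from hh]
          exact hg
        inv_mem' := by
          intro g hg
          change ρ g⁻¹ x = x
          have h1 : ρ g x = x := hg
          have h2 : ρ g⁻¹ (ρ g x) = x := by
            change (ρ g⁻¹ * ρ g) x = x
            rw [← map_mul, inv_mul_cancel, map_one]
            rfl
          rwa [h1] at h2 }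
    let S' : Subgroup G :=
      { carrier := {g : G | quoRep ρ N hN g (QuotientAddGroup.mk x) = QuotientAddGroup.mk x}
        one_mem' := by
          change quoRep ρ N hN 1 (QuotientAddGroup.mk x) = QuotientAddGroup.mk x
          rw [map_one]
          rfl
        mul_mem' := by
          intro g h hg hh
          change quoRep ρ N hN (g * h) (QuotientAddGroup.mk x) = QuotientAddGroup.mk x
          rw [map_mul]
          change quoRep ρ N hN g (quoRep ρ N hN h (QuotientAddGroup.mk x)) = _
          rw [show quoRep ρ N hN h (QuotientAddGroup.mk x) = QuotientAddGroup.mk x from hh]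
          exact hg
        inv_mem' := by
          intro g hg
          change quoRep ρ N hN g⁻¹ (QuotientAddGroup.mk x) = QuotientAddGroup.mk x
          have h1 : quoRep ρ N hN g (QuotientAddGroup.mk x) = QuotientAddGroup.mk x := hg
          have h2 : quoRep ρ N hN g⁻¹ (quoRep ρ N hN g (QuotientAddGroup.mk x)) =
              QuotientAddGroup.mk x := by
            change (quoRep ρ N hN g⁻¹ * quoRep ρ N hN g) (QuotientAddGroup.mk x) = _
            rw [← map_mul, inv_mul_cancel, map_one]
            rfl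
          rwa [h1] at h2 }
    have hSS' : S ≤ S' := by
      intro g hg
      change QuotientAddGroup.mk (ρ g x) = QuotientAddGroup.mk x
      rw [show ρ g x = x from hg]
    exact Subgroup.isOpen_mono hSS' (hρ x)

theorem alg_Q (K : Type*) [Field K] [NumberField K] : Algebra.IsAlgebraic ℚ (Kb K) :=
  Algebra.IsAlgebraic.trans ℚ K (Kb K)

theorem compact_GQ (K : Type*) [Field K] [NumberField K] : CompactSpace (GQ (Kb K)) := by
  have := alg_Q K
  have : IsGalois ℚ (Kb K) := Pool.Agent.Helper3.FS.isGalois_Q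
  infer_instance

/-- The fine Selmer groups of two modules which are conjugate over a Galois extension of
`p`-power degree. -/
theorem sel_conj {K : Type*} [Field K] [NumberField K] {p : ℕ} [Fact p.Prime] (hp : p ≠ 2)
    {M N : Type*} [AddCommGroup M] [AddCommGroup N] [Finite M] (ρ : GK K →* AddMonoid.End M)
    (τ : GK K →* AddMonoid.End N) (hρ : ∀ x : M, IsOpen {g : GK K | ρ g x = x})
    (hτ : ∀ x : N, IsOpen {g : GK K | τ g x = x}) (hk : ∀ x : M, p • x = 0)
    (L : IntermediateField K (Kb K)) [FiniteDimensional K L] [IsGalois K L]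
    (hL : ∃ k : ℕ, Module.finrank K L = p ^ k) (σ : Kb K ≃+* Kb K)
    (hσ : ∀ x, σ x ∈ L ↔ x ∈ L) (h : ConjOver L σ ρ τ) :
    FinSel ρ (Gcyc K p) ↔ FinSel τ (Gcyc K p) := by
  obtain ⟨e, he⟩ := h
  have : Finite N := Finite.of_equiv M e.toEquiv
  have := alg_Q K
  have := compact_GQ K
  obtain ⟨s, hs⟩ := ratAlgEquiv σ
  have htop : (toQ K).range = (⊤ : Subgroup (GK K)).map (toQ K) := MonoidHom.range_eq_map _
  have hfix : ∀ g : GQ (Kb K), g ∈ L.fixingSubgroup.map (toQ K) ↔ ∀ x ∈ L, g x = x := by
    intro g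
    constructor
    · rintro ⟨g', hg', rfl⟩ x hx
      exact (IntermediateField.mem_fixingSubgroup_iff L g').1 hg' x hx
    · intro hg
      refine ⟨AlgEquiv.ofRingEquiv (f := g.toRingEquiv) (fun c => hg _ (L.algebraMap_mem c)),
        ?_, ?_⟩
      · rw [SetLike.mem_coe, IntermediateField.mem_fixingSubgroup_iff]
        intro x hx
        exact hg x hx
      · ext x
        rfl
  rw [Pool.Agent.Helper3.FS.fin_iff ρ hρ, Pool.Agent.Helper3.FS.fin_iff τ hτ, Pool.Agent.Helper3.FS.gcyc_map]
  have hact1 : Act (toQ K).range (extAct ρ) := by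
    rw [htop]
    exact Pool.Agent.Helper3.FS.act_ext ρ hρ ⊤
  have hact2 : Act (toQ K).range (extAct τ) := by
    rw [htop]
    exact Pool.Agent.Helper3.FS.act_ext τ hτ ⊤
  have hinv : ∀ x, s⁻¹ (s x) = x := fun x => by
    rw [← AlgEquiv.mul_apply, inv_mul_cancel]
    rfl
  have hinv' : ∀ x, s (s⁻¹ x) = x := fun x => by
    rw [← AlgEquiv.mul_apply, mul_inv_cancel]
    rfl
  have hσ' : ∀ g, s * g * s⁻¹ ∈ L.fixingSubgroup.map (toQ K) ↔
      g ∈ L.fixingSubgroup.map (toQ K) := by
    intro g
    rw [hfix, hfix]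
    constructor
    · intro h x hx
      have h1 := h (s x) (by rw [hs]; exact (hσ x).2 hx)
      rw [AlgEquiv.mul_apply, AlgEquiv.mul_apply, hinv] at h1
      exact s.injective h1
    · intro h x hx
      have h1 : s⁻¹ x ∈ L := by
        rw [← hσ, ← hs, hinv']
        exact hx
      rw [AlgEquiv.mul_apply, AlgEquiv.mul_apply, h _ h1, hinv']
  apply swap (Prm (Kb K)) (cyc_normal (Kb K) p) (Pool.Agent.Helper98.FS.arith p hp) (L := L.fixingSubgroup.map (toQ K))
    (by rw [htop]; exact Pool.Agent.Helper3.FS.isOpen_map ⊤ isOpen_univ)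
    (Pool.Agent.Helper3.FS.isOpen_map _ L.fixingSubgroup_isOpen) (by rw [htop]; exact Subgroup.map_mono le_top)
    _ _ s hσ' hact1 hk hact2 e _
  · rintro _ ⟨g, rfl⟩ _ ⟨x, hx, rfl⟩
    refine ⟨g * x * g⁻¹, ?_, by simp⟩
    have hn : L.fixingSubgroup.Normal := inferInstance
    exact hn.conj_mem x hx g
  · obtain ⟨k, hk'⟩ := hL
    refine ⟨k, ?_⟩
    rw [htop, Subgroup.relIndex_map_map_of_injective _ _ (toQ_inj K), Subgroup.relIndex_top_right,
      ← IntermediateField.finrank_eq_fixingSubgroup_index, hk']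
  · rintro _ ⟨g, hg, rfl⟩ m
    have h1 : s * toQ K g * s⁻¹ ∈ L.fixingSubgroup.map (toQ K) := (hσ' _).2 ⟨g, hg, rfl⟩
    obtain ⟨h', hh', hh⟩ := h1
    rw [← hh, extAct_toQ, extAct_toQ]
    apply he g h' hg
    intro x
    rw [← hs, ← hs, ← toQ_apply h' (s x), hh, AlgEquiv.mul_apply, AlgEquiv.mul_apply, hinv]
    rfl

end Pool.Agent.Helper58.FS
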